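import Pool.Agent.H257Z.FB.Dom

set_option autoImplicit false

/-! A `C^1` free boundary that is not `C^(1,α)`. The plane is `ℂ`, `x₁ = re`. Inside the disc of
radius two the domain is the image of a right half disc under `w ↦ w (7 - log w)`. -/

open Pool.Agent.H257Z.FB Metric MeasureTheory

theorem Pool.Agent.Results.MP_056161_an.ALogBoundary.result : ∃ (D : Set ℂ) (u : ℂ → ℝ),
    IsLipschitzDomain D ∧ Bornology.IsBounded D ∧ 0 ∈ frontier D ∧
    DifferentiableOn ℝ u (ball 0 2) ∧ (∃ K, LipschitzOnWith K (fderiv ℝ u) (ball 0 2)) ∧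
    (∀ᵐ z ∂(volume.restrict (ball (0 : ℂ) 2)),
      ContDiffAt ℝ 2 u z ∧ Laplacian.laplacian u z = D.indicator Complex.re z) ∧
    (∀ z ∈ ball (0 : ℂ) 2 \ closure D, u z = 0) ∧
    BoundaryGraphNearZero D (fun J γ => ContDiffOn ℝ 1 γ J) ∧
    (∀ α : NNReal, 0 < α → ¬ BoundaryGraphNearZero D fun J γ =>
      ContDiffOn ℝ 1 γ J ∧ ∃ C : NNReal, HolderOnWith C α (deriv γ) J) ∧
    (¬ BoundaryGraphNearZero D fun J γ => ContDiffOn ℝ (⊤ : ℕ∞) γ J) ∧
    (¬ BoundaryGraphNearZero D fun J γ => AnalyticOnNhd ℝ γ J) :=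
  main
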